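import Pool.Agent.N425.KZ1

/-!
# Path schemes in graphs with `r`-colourable non-neighbourhoods

Let `G` be a finite graph in which for every vertex `v` the non-neighbours of `v` induce an `r`-colourable
graph.  Then `G` contains a `(χ(G) - c (r + 1) ^ 10)`-scheme.  Moreover `G` contains a `(χ(G) + E)`-scheme
unless `G` consists of a clique and a `c (r + 1) ^ 36 (E + 1) ^ 4`-colourable graph.  Here `c` is an absolute
constant.

The proof uses that a `K_k` minor gives a `k`-scheme, and the following theorem (`KZ.glob`): if in a finite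
graph `H` the non-neighbours of every vertex induce an `r`-colourable graph, then
`h(H) ≥ χ(H) - c (r + 1) ^ 10`, and `h(H) ≥ χ(H) + E` unless `H` is a clique plus a
`c (r + 1) ^ 36 (E + 1) ^ 4`-colourable graph; `h` is the largest `m` such that `K_m` is a minor.
-/

set_option autoImplicit false

namespace Pool.Agent.Results.MP_950ff6_co.ColourableNonNeighbours

/-- `G` contains a `k`-scheme -/
def HasScheme {V : Type} (G : SimpleGraph V) (k : ℕ) : Prop :=
  ∃ (x : Fin k → V) (P : ∀ i j : Fin k, G.Walk (x i) (x j)), Function.Injective x ∧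
    (∀ i j, (P i j).IsPath) ∧
    ∀ i j h l, i ≠ j → h ≠ l → i ≠ h → i ≠ l → j ≠ h → j ≠ l →
      ∀ u, u ∈ (P i j).support → u ∉ (P h l).support

theorem path_in {V : Type} {G : SimpleGraph V} {S : Set V} (hS : (G.induce S).Connected) {a b : V}
    (ha : a ∈ S) (hb : b ∈ S) : ∃ q : G.Walk a b, q.IsPath ∧ ∀ u ∈ q.support, u ∈ S := by
  classical
  obtain ⟨p⟩ := hS.preconnected ⟨a, ha⟩ ⟨b, hb⟩
  refine ⟨p.toPath.1.map (SimpleGraph.Embedding.induce S).toHom, ?_, ?_⟩
  · exact SimpleGraph.Walk.IsPath.map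
      (SimpleGraph.Embedding.induce (G := G) S).injective p.toPath.2
  · intro u hu
    have hu2 : u ∈ (SimpleGraph.Walk.map (SimpleGraph.Embedding.induce (G := G) S).toHom
      p.toPath.1).support := hu
    rw [SimpleGraph.Walk.support_map, List.mem_map] at hu2
    obtain ⟨w, -, rfl⟩ := hu2
    exact w.2

theorem scheme_of_minor {V : Type} {G : SimpleGraph V} {p : ℕ}
    (h : Pool.Agent.N425.KZ.Minor G p) : HasScheme G p := by
  obtain ⟨B, h1, h2, h3⟩ := h
  have hne : ∀ i, ∃ x, x ∈ B i := by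
    intro i
    obtain ⟨x⟩ := (h1 i).nonempty
    exact ⟨x.1, x.2⟩
  choose x hx using hne
  have hex : ∀ i j, ∃ q : G.Walk (x i) (x j), q.IsPath ∧ ∀ u ∈ q.support, u ∈ B i ∪ B j := by
    intro i j
    by_cases hij : i = j
    · subst hij
      refine ⟨SimpleGraph.Walk.nil, SimpleGraph.Walk.IsPath.nil, ?_⟩
      intro u hu
      rw [SimpleGraph.Walk.support_nil, List.mem_singleton] at hu
      exact Or.inl (hu ▸ hx i)
    · obtain ⟨a, ha, b, hb, hab⟩ := h3 i j hij
      exact path_in (SimpleGraph.connected_induce_union (h1 i).preconnected (h1 j).preconnected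
        ha hb hab) (Or.inl (hx i)) (Or.inr (hx j))
  choose P hP hPB using hex
  refine ⟨x, P, ?_, hP, ?_⟩
  · intro i j hij
    by_contra hne
    exact Set.disjoint_left.1 (h2 i j hne) (hx i) (hij ▸ hx j)
  · intro i j k l _ _ hik hil hjk hjl u hu hu'
    rcases hPB i j u hu with h4 | h4 <;> rcases hPB k l u hu' with h5 | h5
    · exact Set.disjoint_left.1 (h2 _ _ hik) h4 h5
    · exact Set.disjoint_left.1 (h2 _ _ hil) h4 h5
    · exact Set.disjoint_left.1 (h2 _ _ hjk) h4 h5
    · exact Set.disjoint_left.1 (h2 _ _ hjl) h4 h5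

/-- **Path schemes in graphs with `r`-colourable non-neighbourhoods.** -/
theorem result : ∃ c : ℕ, ∀ (r E : ℕ) (V : Type) [Finite V] (G : SimpleGraph V),
    (∀ v, (G.induce {w | w ≠ v ∧ ¬ G.Adj v w}).Colorable r) →
      ((∃ K : Set V, G.IsClique K ∧ (G.induce Kᶜ).Colorable (c * ((r + 1) ^ 36 * (E + 1) ^ 4))) ∨
        ∀ k : ℕ, ¬ G.Colorable k → HasScheme G (k + 1 + E)) ∧
      ∀ k : ℕ, ¬ G.Colorable (k + c * (r + 1) ^ 10) → HasScheme G (k + 1) := by
  obtain ⟨c, hc⟩ := Pool.Agent.N425.KZ.glob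
  refine ⟨c, ?_⟩
  intro r E V _ G h
  refine ⟨?_, fun k hk => scheme_of_minor ((hc r E V G h).2 k hk)⟩
  rcases (hc r E V G h).1 with h1 | h1
  · exact Or.inl h1
  · exact Or.inr fun k hk => scheme_of_minor (h1 k hk)

end Pool.Agent.Results.MP_950ff6_co.ColourableNonNeighbours
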